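import Mathlib

set_option autoImplicit false

open Filter Topology Function Set Complex

namespace Pool.Agent.Results.MP_c62c12_an.No

noncomputable def t0 : ℝ := Real.arccos (-2 / 3)

theorem c0 : Real.cos t0 = -2 / 3 := by rw [t0, Real.cos_arccos] <;> norm_num

theorem s0 : 7 / 10 < Real.sin t0 := by
  rw [t0, Real.sin_arccos]; exact Real.lt_sqrt_of_sq_lt (by norm_num)

theorem irr : Irrational (t0 / Real.pi) := by
  rintro ⟨r, hr⟩
  have := niven (θ := t0) ⟨r, by rw [hr]; field_simp⟩ ⟨-2 / 3, by rw [c0]; norm_num⟩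
  rw [c0] at this
  norm_num at this

theorem appr {x : ℝ} (hx : Irrational x) (M : ℕ) (M0 : 0 < M) :
    ∃ (N : ℕ) (a : ℤ), M ≤ N ∧ Odd a ∧ IsCoprime (N : ℤ) a ∧ |N * x - a| ≤ 3 / M := by
  have : ∀ᶠ n : ℕ in atTop, ∀ d ∈ Ioo 0 M, 1 / ((n : ℝ) + 1) < |d * x - round (d * x)| :=
    (eventually_all_finite (finite_Ioo 0 M)).2 fun d hd =>
      tendsto_one_div_add_atTop_nhds_zero_nat.eventually_lt_const
        (abs_pos.2 (sub_ne_zero.2 ((hx.natCast_mul hd.1.ne').ne_int _)))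
  obtain ⟨n, h1, h2⟩ := (this.and (eventually_gt_atTop 0)).exists
  obtain ⟨q, q1, q2⟩ := Real.exists_rat_abs_sub_le_and_den_le x h2
  have Q0 : (0 : ℝ) < q.den := by exact_mod_cast q.pos
  have e : |q.den * x - q.num| ≤ 1 / (n + 1) := by
    rw [show q.den * x - q.num = q.den * (x - q) by rw [Rat.cast_def]; field_simp, abs_mul,
      abs_of_pos Q0]
    rw [le_div_iff₀ (by positivity)] at q1 ⊢
    linarith
  have hM : M ≤ q.den := by
    by_contra! k
    exact (h1 _ ⟨q.pos, k⟩).not_ge ((round_le _ _).trans e)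
  have e2 : |q.den * x - q.num| ≤ 1 / q.den :=
    e.trans (one_div_le_one_div_of_le Q0 (by exact_mod_cast q2.trans n.le_succ))
  have e3 : (3 : ℝ) / q.den ≤ 3 / M :=
    div_le_div_of_nonneg_left (by norm_num) (by exact_mod_cast M0) (by exact_mod_cast hM)
  obtain ⟨u, v, huv⟩ := q.isCoprime_num_den
  rcases Int.even_or_odd q.num with h | h
  · have d0 : (0 : ℤ) < q.den := by exact_mod_cast q.pos
    have r0 := Int.emod_nonneg (-u) d0.ne'
    have r1 := Int.emod_lt_of_pos (-u) d0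
    have r2 := Int.emod_add_mul_ediv (-u) q.den
    obtain ⟨N, hN⟩ := Int.eq_ofNat_of_zero_le (show 0 ≤ -u % q.den + q.den by omega)
    obtain ⟨a, ha⟩ : ∃ a : ℤ, a * q.den - N * q.num = 1 :=
      ⟨v - -u / q.den * q.num + q.num, by rw [← hN]; linear_combination huv - q.num * r2⟩
    refine ⟨N, a, by omega, ?_, ⟨-q.num, q.den, by linarith⟩, le_trans ?_ e3⟩
    · have : Odd (a * q.den) := by
        rw [show a * q.den = N * q.num + 1 by linarith]
        exact (h.mul_left _).add_one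
      exact (Int.odd_mul.1 this).1
    · have h3 : (a : ℝ) * q.den - N * q.num = 1 := by exact_mod_cast ha
      have h4 : (N : ℝ) ≤ 2 * q.den := by exact_mod_cast (by omega : N ≤ 2 * q.den)
      rw [le_div_iff₀ Q0] at e2 ⊢
      have : (N * x - a) * q.den = N * (q.den * x - q.num) - 1 := by linarith
      rw [← abs_of_pos Q0, ← abs_mul, this]
      refine (abs_sub _ _).trans ?_
      rw [abs_mul, abs_one, Nat.abs_cast]
      nlinarith [abs_nonneg (q.den * x - q.num)]
  · exact ⟨q.den, q.num, hM, h, ⟨v, u, by linarith⟩,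
      e2.trans ((div_le_div_of_nonneg_right (by norm_num) Q0.le).trans e3)⟩

theorem jordan {N : ℕ} (N0 : 0 < N) {n : ℤ} (h : ¬(N : ℤ) ∣ n) :
    1 / (N : ℝ) ≤ |Real.sin (n / (2 * N) * Real.pi)| := by
  have p := Real.pi_pos
  have n0 : (0 : ℝ) < N := by exact_mod_cast N0
  set q := round ((n : ℝ) / (2 * N))
  have h1 : |(n : ℝ) / (2 * N) - q| ≤ 1 / 2 := abs_sub_round _
  rw [show (n : ℝ) / (2 * N) * Real.pi = (n / (2 * N) - q) * Real.pi + q * Real.pi by ring,
    Real.sin_add_int_mul_pi, abs_mul, abs_zpow, abs_neg, abs_one, one_zpow, one_mul]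
  refine le_trans ?_ (Real.mul_abs_le_abs_sin (by rw [abs_mul, abs_of_pos p]; nlinarith))
  have : (1 : ℝ) ≤ |(n : ℝ) - N * (2 * q)| := by
    have : n - N * (2 * q) ≠ 0 := fun k => h ⟨2 * q, by linarith⟩
    exact_mod_cast Int.one_le_abs this
  rw [show ((n : ℝ) / (2 * N) - q) * Real.pi = (n - N * (2 * q)) * (Real.pi / (2 * N)) by
    field_simp, abs_mul, abs_of_pos (by positivity : 0 < Real.pi / (2 * N))]
  calc 1 / (N : ℝ) = 2 / Real.pi * (1 * (Real.pi / (2 * N))) := by field_simp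
    _ ≤ _ := by gcongr

noncomputable def ex (t : ℝ) : ℂ := exp (t * I)

theorem exr (t : ℝ) : (ex t).re = Real.cos t := exp_ofReal_mul_I_re t
theorem exi (t : ℝ) : (ex t).im = Real.sin t := exp_ofReal_mul_I_im t
theorem exn (t : ℝ) : ‖ex t‖ = 1 := norm_exp_ofReal_mul_I t
theorem exp' (t : ℝ) (n : ℕ) : ex t ^ n = ex (n * t) := by
  rw [ex, ex, ← exp_nat_mul]; congr 1; push_cast; ring
theorem exm (t : ℝ) : ex (-t) * ex t = 1 := by
  rw [ex, ex, ← exp_add, ← exp_zero]; congr 1; push_cast; ring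
theorem exc : Continuous ex := by unfold ex; fun_prop

noncomputable def Pn (t b : ℝ) : ℂ := ex (-t) * (3 * Real.cos t + 2 : ℝ) + (1 - ex b) / 2
noncomputable def Dn (t b : ℝ) : ℂ := ex (-t) ^ 2 + ex b

theorem est {t b g : ℝ} (hg : g ≤ 1 / 100) (h1 : |t - t0| ≤ g) (h2 : |b| ≤ 1 / 10) :
    |Real.cos t + 2 / 3| ≤ g ∧ 3 / 5 < Real.sin t ∧ 1 ≤ ‖Dn t b‖ ∧
    ‖Pn t b / Dn t b‖ ≤ 3 * g + |b| / 2 := by
  have a1 := (Real.abs_cos_sub_cos_le t t0).trans h1
  have a2 := (Real.abs_sin_sub_sin_le t t0).trans h1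
  rw [c0, show Real.cos t - -2 / 3 = Real.cos t + 2 / 3 by ring] at a1
  have a3 : ‖1 - ex b‖ ≤ |b| := by
    rw [norm_sub_rev, ex, mul_comm]; exact Real.norm_exp_I_mul_ofReal_sub_one_le
  have a4 : 1 ≤ ‖Dn t b‖ := by
    have : Dn t b = ex (-t) * (2 * Real.cos t : ℝ) - (1 - ex b) := by
      have : ((2 * Real.cos t : ℝ) : ℂ) = ex (-t) + ex t := by
        apply Complex.ext <;> simp [exr, exi, -ofReal_cos]; ring
      rw [this, Dn]; linear_combination -exm t
    have k := norm_sub_norm_le (ex (-t) * (2 * Real.cos t : ℝ)) (1 - ex b)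
    rw [← this, norm_mul, exn, norm_real, Real.norm_eq_abs] at k
    linarith [neg_le_abs (2 * Real.cos t), (abs_le.1 a1).2]
  refine ⟨a1, by linarith [s0, (abs_le.1 a2).1], a4, ?_⟩
  rw [norm_div]
  refine (div_le_self (norm_nonneg _) a4).trans ((norm_add_le _ _).trans ?_)
  rw [norm_mul, exn, norm_real, Real.norm_eq_abs, norm_div,
    show 3 * Real.cos t + 2 = 3 * (Real.cos t + 2 / 3) by ring, abs_mul]
  simp only [Complex.norm_ofNat, Nat.abs_ofNat]
  linarith

theorem sgn {t b g : ℝ} (hg : g ≤ 1 / 100) (h1 : |t - t0| ≤ g) (h2 : |b| ≤ 1 / 10)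
    (h3 : 100 * g ≤ |b|) (h4 : b ≠ 0) : b * (Pn t b / Dn t b).re < 0 := by
  obtain ⟨a1, a2, a3, -⟩ := est hg h1 h2
  have n : 0 < normSq (Dn t b) := normSq_pos.2 (norm_pos_iff.1 (by linarith))
  rw [div_re, ← add_div, ← mul_div_assoc]
  refine div_neg_of_neg_of_pos ?_ n
  have e1 := Real.sin_sq_add_cos_sq t
  have e2 := Real.sin_sq_add_cos_sq b
  have e : (Pn t b).re * (Dn t b).re + (Pn t b).im * (Dn t b).im =
      (3 * Real.cos t + 2) * (Real.cos t + Real.cos (t + b)) -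
      (1 - Real.cos b) * Real.sin t ^ 2 + Real.sin b * (Real.cos t * Real.sin t) := by
    simp only [Pn, Dn, sq, add_re, add_im, mul_re, mul_im, exr, exi, ofReal_re, ofReal_im,
      div_ofNat_re, div_ofNat_im, sub_re, sub_im, one_re, one_im, Real.cos_neg, Real.sin_neg,
      Real.cos_add]
    linear_combination ((3 * Real.cos t + 2) * Real.cos t + (1 - Real.cos b) / 2) * e1 - e2 / 2
  rw [e]
  have k1 : |(3 * Real.cos t + 2) * (Real.cos t + Real.cos (t + b))| ≤ 3 * g * 2 := by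
    rw [abs_mul]
    refine mul_le_mul ?_ ((abs_add_le _ _).trans ?_) (abs_nonneg _) (by linarith [abs_nonneg (t - t0)])
    · rw [show 3 * Real.cos t + 2 = 3 * (Real.cos t + 2 / 3) by ring, abs_mul]
      simp only [Nat.abs_ofNat]; linarith
    · linarith [Real.abs_cos_le_one t, Real.abs_cos_le_one (t + b)]
  have k2 : (1 - Real.cos b) * Real.sin t ^ 2 ≤ b ^ 2 / 2 := by
    nlinarith [Real.one_sub_sq_div_two_le_cos (x := b), Real.cos_le_one b, sq_nonneg (Real.cos t)]
  have k3 : 0 ≤ (1 - Real.cos b) * Real.sin t ^ 2 :=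
    mul_nonneg (by linarith [Real.cos_le_one b]) (sq_nonneg _)
  have k4 : Real.cos t * Real.sin t ≤ -1 / 3 := by nlinarith [(abs_le.1 a1).2]
  rw [abs_le] at k1
  rcases h4.lt_or_gt with k | k
  · rw [abs_of_neg k] at h2 h3
    have := Real.sin_gt_sub_cube (neg_pos.2 k)
    rw [Real.sin_neg] at this
    have : Real.sin b < b / 2 := by nlinarith [mul_pos (neg_pos.2 k) (neg_pos.2 k)]
    refine mul_neg_of_neg_of_pos k ?_
    nlinarith
  · rw [abs_of_pos k] at h2 h3
    have := Real.sin_gt_sub_cube k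
    have : b / 2 < Real.sin b := by nlinarith [mul_pos k k]
    refine mul_neg_of_pos_of_neg k ?_
    nlinarith

theorem geom (K : ℕ) : ∃ (t : ℝ) (j : ℕ) (h : ℂ), K ≤ j ∧ Irrational (t / (2 * Real.pi)) ∧ 0 < t ∧
    1 / 2 < Real.sin t ∧ Real.cos t < 0 ∧ 0 < h.re ∧
    (∀ i ∈ Icc 1 j, (ex t ^ i * (1 / 2 + h)).re < 1 / 2) ∧
    1 / 2 < (ex (-t) * (1 / 2 + h - 2)).re ∧ 1 / 2 < (ex (-t) * (ex (-t) * (1 / 2 + h - 2) - 2)).re ∧
    ex (-t) * (ex (-t) * (ex (-t) * (1 / 2 + h - 2) - 2) - 2) = ex t ^ j * (1 / 2 + h) := by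
  obtain ⟨N, a, h1, h2, h3, h4⟩ := appr irr (K + 100000) (by omega)
  have p := Real.pi_pos
  have n1 : (100000 : ℝ) ≤ N := by exact_mod_cast (by omega : 100000 ≤ N)
  have n0 : (0 : ℝ) < N := by linarith
  obtain ⟨w, hw⟩ : ∃ w : ℝ, w = 1 / N := ⟨_, rfl⟩
  have w0 : 0 < w := by rw [hw]; positivity
  have w1 : N * w = 1 := by rw [hw]; field_simp
  have w2 : w ≤ 1 / 100000 := by rw [hw]; exact one_div_le_one_div_of_le (by norm_num) n1
  have h5 : |N * t0 - a * Real.pi| ≤ 1 / 5000 := by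
    rw [show N * t0 - a * Real.pi = (N * (t0 / Real.pi) - a) * Real.pi by field_simp, abs_mul,
      abs_of_pos p]
    have : (3 : ℝ) / (K + 100000 : ℕ) ≤ 3 / 100000 :=
      div_le_div_of_nonneg_left (by norm_num) (by norm_num) (by exact_mod_cast (by omega))
    nlinarith [Real.pi_lt_four, abs_nonneg (N * (t0 / Real.pi) - a)]
  have hK : K < N := by omega
  clear h1 h4
  let τ := fun b : ℝ => (a * Real.pi + b) * w
  let H := fun b => Pn (τ b) b / Dn (τ b) b
  have cl : ∀ b, |b| ≤ w / 10 → |τ b - t0| ≤ w / 1000 := fun b hb => by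
    rw [show τ b - t0 = (b - (N * t0 - a * Real.pi)) * w by linear_combination t0 * w1, abs_mul,
      abs_of_pos w0]
    nlinarith [abs_sub b (N * t0 - a * Real.pi)]
  have E := fun b hb => est (b := b) (by linarith) (cl b hb) (by linarith)
  have cH : ∀ b, |b| ≤ w / 10 → ContinuousAt H b := fun b hb => by
    have := exc
    refine ContinuousAt.div ?_ ?_ (norm_pos_iff.1 (by linarith [(E b hb).2.2.1]))
    · unfold Pn; fun_prop
    · unfold Dn; fun_prop
  have ab : ∀ b ∈ Icc (-(w / 10)) (w / 10), |b| ≤ w / 10 := fun b hb => abs_le.2 hb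
  obtain ⟨b, ⟨b1, b2⟩, hb⟩ := (isCompact_Icc.of_isClosed_subset
    ((continuous_re.comp_continuousOn fun b hb =>
    (cH b (ab b hb)).continuousWithinAt).preimage_isClosed_of_isClosed isClosed_Icc
    (isClosed_Iic (a := 0))) inter_subset_left).exists_isLeast ⟨w / 10, ⟨by linarith, le_rfl⟩, by
      have := sgn (b := w / 10) (by linarith) (cl _ (abs_of_pos (by linarith)).le)
        (by rw [abs_of_pos] <;> linarith) (by rw [abs_of_pos] <;> linarith) (by linarith)
      by_contra! k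
      exact this.not_gt (mul_pos (by linarith) (not_le.1 k))⟩
  change (H b).re ≤ 0 at b2
  have b3 : -(w / 10) < b := by
    refine b1.1.lt_of_ne ?_
    rintro rfl
    have q : |-(w / 10)| = w / 10 := by rw [abs_neg, abs_of_pos (by linarith)]
    have := sgn (b := -(w / 10)) (by linarith) (cl _ q.le) (by linarith) (by linarith) (by linarith)
    exact this.not_ge (mul_nonneg_of_nonpos_of_nonpos (by linarith) b2)
  have pos : ∀ᶠ c in 𝓝[<] b, |c| ≤ w / 10 ∧ 0 < (H c).re := by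
    filter_upwards [Ioo_mem_nhdsLT b3] with c hc
    have : c ∈ Icc (-(w / 10)) (w / 10) := ⟨hc.1.le, hc.2.le.trans b1.2⟩
    refine ⟨ab c this, ?_⟩
    by_contra! k
    exact hc.2.not_ge (hb ⟨this, k⟩)
  have cb := cH b (ab b b1)
  have b4 : (H b).re = 0 := le_antisymm b2 (ge_of_tendsto
    ((continuous_re.continuousAt.comp cb).tendsto.mono_left nhdsWithin_le_nhds)
    (pos.mono fun c hc => hc.2.le))
  obtain ⟨j, rfl⟩ : ∃ j, N = j + 1 := ⟨N - 1, by omega⟩
  have ev : ∀ᶠ c in 𝓝 b, ∀ i ∈ Icc 1 j, (ex (τ c) ^ i * (1 / 2 + H c)).re < 1 / 2 := by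
    refine (eventually_all_finite (finite_Icc 1 j)).2 fun i hi => ?_
    have : ContinuousAt (fun c => (ex (τ c) ^ i * (1 / 2 + H c)).re) b := by
      have := exc
      fun_prop
    refine this.tendsto.eventually_lt_const ?_
    have y := (abs_im_le_norm _).trans (E b (ab b b1)).2.2.2
    have j1 := jordan (N := j + 1) (n := i * a) (by omega) fun k =>
      (Int.le_of_dvd (by exact_mod_cast hi.1) (h3.dvd_of_dvd_mul_right k)).not_gt
        (by exact_mod_cast Nat.lt_succ_of_le hi.2)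
    have j2 := Real.abs_sin_sub_sin_le ((i * a : ℤ) / (2 * (j + 1 : ℕ)) * Real.pi) (i * τ b / 2)
    have i1 : (i : ℝ) * w ≤ 1 := by
      rw [← w1]; gcongr; exact hi.2.trans j.le_succ
    rw [show ((i * a : ℤ) / (2 * (j + 1 : ℕ)) * Real.pi : ℝ) - i * τ b / 2 = -(i * w / 2 * b) by
      simp only [τ, hw]; push_cast; field_simp; ring, abs_neg, abs_mul,
      abs_of_nonneg (by positivity : 0 ≤ i * w / 2)] at j2
    have j3 := abs_sub_abs_le_abs_sub (Real.sin ((i * a : ℤ) / (2 * (j + 1 : ℕ)) * Real.pi))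
      (Real.sin (i * τ b / 2))
    have j4 : 2 * |(H b).im| < |Real.sin (i * τ b / 2)| := by
      nlinarith [ab b b1, abs_nonneg b]
    rw [exp', mul_re, exr, exi, add_re, add_im, b4, show (i : ℝ) * τ b = 2 * (i * τ b / 2) by ring,
      Real.cos_two_mul, Real.sin_two_mul, Real.cos_sq']
    set s := Real.sin (i * τ b / 2)
    have j5 : -(s * Real.cos (i * τ b / 2) * (H b).im) ≤ |s| * |(H b).im| := by
      refine (neg_le_abs _).trans ?_
      rw [abs_mul, abs_mul]
      exact mul_le_mul_of_nonneg_right (mul_le_of_le_one_right (abs_nonneg _)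
        (Real.abs_cos_le_one _)) (abs_nonneg _)
    have j6 : 0 < |s| := lt_of_le_of_lt (by positivity) j4
    norm_num
    nlinarith [sq_abs s, mul_lt_mul_of_pos_left j4 j6]
  obtain ⟨lo, lo1, lo2⟩ := mem_nhdsLT_iff_exists_Ioo_subset.1 (pos.and (nhdsWithin_le_nhds ev))
  obtain ⟨x, x1, x2, x3⟩ := exists_irrational_btwn (show τ lo / (2 * Real.pi) < τ b / (2 * Real.pi) by
    have : lo < b := lo1
    simp only [τ]; gcongr)
  obtain ⟨c, hc⟩ : ∃ c, τ c = x * (2 * Real.pi) := ⟨x * (2 * Real.pi) * (j + 1 : ℕ) - a * Real.pi, by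
    simp only [τ]; linear_combination x * (2 * Real.pi) * w1⟩
  rw [div_lt_iff₀ (by positivity), ← hc] at x2
  rw [lt_div_iff₀ (by positivity), ← hc] at x3
  obtain ⟨⟨c1, c2⟩, c3⟩ := lo2 (show c ∈ Ioo lo b from
    ⟨by linarith [lt_of_mul_lt_mul_right x2 w0.le], by linarith [lt_of_mul_lt_mul_right x3 w0.le]⟩)
  obtain ⟨e1, e2, e3, e4⟩ := E c c1
  have e5 : ‖H c‖ ≤ 1 / 100 := by linarith
  rw [abs_le] at e1
  have r : ∀ z : ℂ, ‖z‖ = 1 → -(1 / 100) ≤ (z * H c).re := fun z hz => by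
    have := abs_re_le_norm (z * H c)
    rw [norm_mul, hz] at this
    linarith [neg_abs_le (z * H c).re]
  refine ⟨τ c, j, H c, by omega, by rw [hc]; simpa [p.ne'] using x1, ?_, by linarith, by linarith,
    c2, c3, ?_, ?_, ?_⟩
  · have := Real.sin_le (x := t0) (Real.arccos_nonneg _)
    linarith [(abs_le.1 (cl c c1)).1, s0]
  · have := r _ (exn (-τ c))
    rw [show ex (-τ c) * (1 / 2 + H c - 2) = ex (-τ c) * H c - ex (-τ c) * (3 / 2 : ℝ) by
      push_cast; ring, sub_re, re_mul_ofReal, exr, Real.cos_neg]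
    linarith
  · have := r (ex (-τ c) ^ 2) (by rw [norm_pow, exn, one_pow])
    rw [show ex (-τ c) * (ex (-τ c) * (1 / 2 + H c - 2) - 2) = ex (-τ c) ^ 2 * H c -
      ex (-τ c) ^ 2 * (3 / 2 : ℝ) - ex (-τ c) * (2 : ℝ) by push_cast; ring, sub_re, sub_re,
      re_mul_ofReal, re_mul_ofReal, exr, exp' _ 2, exr, Real.cos_neg, mul_neg, Real.cos_neg,
      Nat.cast_ofNat, Real.cos_two_mul]
    rw [exp' _ 2, mul_neg, Nat.cast_ofNat] at this
    nlinarith
  · have k1 : ex (τ c) ^ (j + 1) = -ex c := by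
      obtain ⟨m, rfl⟩ := h2
      rw [exp', show (j + 1 : ℕ) * τ c = c + Real.pi + m * (2 * Real.pi) by
        simp only [τ]; push_cast at w1 ⊢; linear_combination ((2 * m + 1) * Real.pi + c) * w1]
      apply Complex.ext <;> simp [exr, exi]
    have k2 : H c * Dn (τ c) c = Pn (τ c) c :=
      div_mul_cancel₀ _ (norm_pos_iff.1 (by linarith))
    have k3 : ((3 * Real.cos (τ c) + 2 : ℝ) : ℂ) = 3 / 2 * (ex (-τ c) + ex (τ c)) + 2 := by
      apply Complex.ext <;> simp [exr, exi, -ofReal_cos]; ring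
    rw [Pn, Dn, k3] at k2
    linear_combination ex (-τ c) * k2 - ex (-τ c) * (1 / 2 + H c) * k1 +
      (ex (τ c) ^ j * (1 / 2 + H c) + 3 / 2 * ex (-τ c)) * exm (τ c)

noncomputable def T (l u : ℂ) : ℂ := if u.re < 1 / 2 then l * u else l * (u - 2)

theorem result (c : ℝ) : ∃ (α : ℝ) (z : ℕ → ℂ) (ε : ℕ → ℝ), Irrational α ∧ 0 < α ∧
    (∀ n, ε n = 1 ∨ ε n = -1) ∧
    (∀ n : ℕ, z (n + 1) = z n + ε n * exp (2 * Real.pi * I * α * n)) ∧
    (∀ n : ℕ, ‖z n + ε n * exp (2 * Real.pi * I * α * n)‖ <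
      ‖z n - ε n * exp (2 * Real.pi * I * α * n)‖) ∧
    (∃ N p : ℕ, 1 ≤ p ∧ ∀ n ≥ N, ε (n + p) = ε n) ∧
    ∀ N p : ℕ, 1 ≤ p → (∀ n ≥ N, ε (n + p) = ε n) → c / |2 * α - round (2 * α)| < p := by
  obtain ⟨K, hK⟩ := exists_nat_ge (8 * |c|)
  obtain ⟨t, j, h, h1, h2, h3, h4, h5, h6, h7, h8, h9, h10⟩ := geom K
  have p := Real.pi_pos
  have le1 := exm t
  set e := ex t with he
  set l := ex (-t)
  have rot : ∀ i ≤ j, (T l)^[i] (e ^ j * (1 / 2 + h)) = e ^ (j - i) * (1 / 2 + h) := fun i hi => by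
    induction i with
    | zero => rfl
    | succ i ih =>
      rw [iterate_succ_apply', ih (by omega), T, if_pos (h7 _ ⟨by omega, by omega⟩),
        show j - i = (j - (i + 1)) + 1 by omega, pow_succ]
      linear_combination e ^ (j - (i + 1)) * (1 / 2 + h) * le1
  set u := e ^ j * (1 / 2 + h)
  have p0 : 1 / 2 < (1 / 2 + h).re := by simpa using h6
  have b0 : (T l)^[j] u = 1 / 2 + h := by rw [rot j le_rfl]; simp
  have b1 : (T l)^[j + 1] u = l * (1 / 2 + h - 2) := by
    rw [iterate_succ_apply', b0, T, if_neg p0.not_gt]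
  have b2 : (T l)^[j + 2] u = l * (l * (1 / 2 + h - 2) - 2) := by
    rw [iterate_succ_apply', b1, T, if_neg h8.not_gt]
  have per : IsPeriodicPt (T l) (j + 3) u := by
    rw [IsPeriodicPt, IsFixedPt, iterate_succ_apply', b2, T, if_neg h9.not_gt, h10]
  have lo : ∀ n, n % (j + 3) < j → ((T l)^[n] u).re < 1 / 2 := fun n k => by
    rw [← per.iterate_mod_apply, rot _ k.le]; exact h7 _ ⟨by omega, by omega⟩
  have hi : ∀ n, j ≤ n % (j + 3) → 1 / 2 < ((T l)^[n] u).re := fun n k => by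
    have := Nat.mod_lt n (show 0 < j + 3 by omega)
    rw [← per.iterate_mod_apply]
    rcases (by omega : n % (j + 3) = j ∨ n % (j + 3) = j + 1 ∨ n % (j + 3) = j + 2) with k | k | k <;>
      rw [k]
    exacts [b0 ▸ p0, b1 ▸ h8, b2 ▸ h9]
  have een : ∀ n : ℕ, exp (2 * Real.pi * I * (t / (2 * Real.pi) : ℝ) * n) = e ^ n := fun n => by
    have : (Real.pi : ℂ) ≠ 0 := by exact_mod_cast p.ne'
    rw [he, exp', ex]; congr 1; push_cast; field_simp
  have er : e.re = Real.cos t := exr t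
  have e1 : e - 1 ≠ 0 := fun k => by
    have := congrArg re k
    simp [er] at this; linarith
  obtain ⟨w, hw, wr⟩ : ∃ w : ℂ, w * e = w + 1 ∧ w.re = -1 / 2 := ⟨1 / (e - 1), by field_simp; ring, by
    have := normSq_pos.2 e1
    rw [one_div, inv_re, div_eq_iff this.ne', normSq_apply]
    simp only [sub_re, sub_im, one_re, one_im, he, exr, exi]
    nlinarith [Real.sin_sq_add_cos_sq t]⟩
  refine ⟨t / (2 * Real.pi), fun n => ((T l)^[n] u + w) * e ^ n,
    fun n => if ((T l)^[n] u).re < 1 / 2 then 1 else -1,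
    h2, by positivity, fun n => ?_, fun n => ?_, fun n => ?_,
    ⟨0, j + 3, by omega, fun n _ => by simp only [iterate_add_apply, per.eq]⟩, fun N q q1 hq => ?_⟩
  · simp only
    split_ifs <;> simp
  · simp only [een, iterate_succ_apply', T]
    split_ifs <;> push_cast
    · linear_combination e ^ n * hw + e ^ n * (T l)^[n] u * le1
    · linear_combination e ^ n * hw + e ^ n * ((T l)^[n] u - 2) * le1
  · simp only [een]
    rw [← add_mul, ← sub_mul, norm_mul, norm_mul, norm_pow, exn, one_pow, mul_one, mul_one,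
      ← sq_lt_sq₀ (norm_nonneg _) (norm_nonneg _), Complex.sq_norm, Complex.sq_norm, normSq_apply,
      normSq_apply]
    split_ifs with k
    · simp [wr]; linarith
    · have := (lt_or_ge (n % (j + 3)) j).elim (fun a => absurd (lo n a) k) (hi n)
      simp [wr]; linarith
  have jq : j < q := by
    by_contra! k
    have := hq (N * (j + 3) + (j - q)) (by nlinarith [Nat.zero_le (j - q)])
    simp only at this
    rw [if_pos (lo (N * (j + 3) + (j - q)) (by
      rw [Nat.mul_add_mod_of_lt (by omega)]; omega)), if_neg (hi _ (by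
      rw [add_assoc, Nat.mul_add_mod_of_lt (by omega)]; omega)).not_gt] at this
    norm_num at this
  have d : 1 / 8 ≤ |2 * (t / (2 * Real.pi)) - round (2 * (t / (2 * Real.pi)))| := by
    set m := round (2 * (t / (2 * Real.pi)))
    have := Real.abs_sin_le_abs (x := (2 * (t / (2 * Real.pi)) - m) * Real.pi)
    rw [abs_mul, abs_of_pos p, show (2 * (t / (2 * Real.pi)) - m) * Real.pi = t - m * Real.pi by
      field_simp, Real.sin_sub_int_mul_pi, abs_mul, abs_zpow, abs_neg, abs_one, one_zpow,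
      one_mul] at this
    by_contra! k
    nlinarith [le_abs_self (Real.sin t), Real.pi_lt_four]
  have : (K : ℝ) < q := by exact_mod_cast h1.trans_lt jq
  rw [div_lt_iff₀ (by linarith)]
  nlinarith [le_abs_self c, abs_nonneg c]

end Pool.Agent.Results.MP_c62c12_an.No
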